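import Mathlib
import Pool.Agent.Helper998.VecMatroid

/-!
# A modular cut below an orientable one that has no oriented extension

An oriented matroid on eight elements of rank five, a simple oriented one-element extension with
modular cut `𝓜`, and a modular cut `𝓜' ⊆ 𝓜` to which no oriented one-element extension corresponds.
-/

set_option autoImplicit false

open Set Pool.Agent.Helper998.VecMatroid

namespace Pool.Agent.Results.MP_6e3918_co.SubCutNotOrientable

/-- The support of a sign vector. -/
def supp {α : Type} (X : α → SignType) : Set α := {e | X e ≠ 0}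

/-- An oriented matroid on the ground set `α` (all of the type): a matroid together with a signature
of its circuits that is closed under negation, has two opposite sign vectors on every circuit, and
satisfies the weak elimination axiom. -/
structure OrientedMatroid (α : Type) where
  /-- the underlying matroid -/
  matroid : Matroid α
  /-- the ground set is everything -/
  ground : matroid.E = Set.univ
  /-- the signed circuits -/
  circuits : Set (α → SignType)
  /-- the supports of the signed circuits are the circuits of the underlying matroid -/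
  isCircuit_iff : ∀ S : Set α, matroid.IsCircuit S ↔ ∃ X ∈ circuits, supp X = S
  /-- the negative of a signed circuit is a signed circuit -/
  neg_mem : ∀ X ∈ circuits, (-X) ∈ circuits
  /-- two signed circuits on the same circuit agree up to sign -/
  eq_or_eq_neg : ∀ X ∈ circuits, ∀ Y ∈ circuits, supp X = supp Y → X = Y ∨ X = -Y
  /-- weak elimination -/
  elimination : ∀ X ∈ circuits, ∀ Y ∈ circuits, X ≠ -Y → ∀ e, X e = 1 → Y e = -1 →
    ∃ Z ∈ circuits, Z e = 0 ∧ (∀ f, Z f = 1 → X f = 1 ∨ Y f = 1) ∧
      (∀ f, Z f = -1 → X f = -1 ∨ Y f = -1)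

/-- `O'` (on `Option α`, the new element is `none`) is a single-element extension of `O`: its
deletion of `none` is `O`, that is, the signed circuits of `O` are exactly the restrictions to `α`
of the signed circuits of `O'` that vanish at `none`. -/
def IsExtension {α : Type} (O : OrientedMatroid α) (O' : OrientedMatroid (Option α)) : Prop :=
  ∀ X : α → SignType, X ∈ O.circuits ↔ (fun e : Option α => e.elim 0 X) ∈ O'.circuits

/-- Modular cuts of a matroid. -/
structure IsModularCut {α : Type} (M : Matroid α) (𝓜 : Set (Set α)) : Prop where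
  isFlat : ∀ F ∈ 𝓜, M.IsFlat F
  up_closed : ∀ F ∈ 𝓜, ∀ G, M.IsFlat G → F ⊆ G → G ∈ 𝓜
  inter_mem : ∀ F ∈ 𝓜, ∀ G ∈ 𝓜, M.eRk F + M.eRk G = M.eRk (F ∪ G) + M.eRk (F ∩ G) → F ∩ G ∈ 𝓜

/-- The single-element extension `O'` of `O` corresponds to `𝓜`: the members of `𝓜` are exactly the
flats of the underlying matroid of `O` whose closure in `O'` contains the new element. -/
def Corresponds {α : Type} (O : OrientedMatroid α) (O' : OrientedMatroid (Option α))
    (𝓜 : Set (Set α)) : Prop :=
  ∀ F : Set α, F ∈ 𝓜 ↔ O.matroid.IsFlat F ∧ none ∈ O'.matroid.closure (some '' F)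

/-! ### Oriented matroids of vector families -/

section Vec

variable {ι V : Type} [Fintype ι] [AddCommGroup V] [Module ℚ V]

theorem isRel_add {v : ι → V} {c d : ι → ℚ} (hc : IsRel v c) (hd : IsRel v d) (s t : ℚ) :
    IsRel v (fun i => s * c i + t * d i) := by
  unfold IsRel at *
  have : ∀ i, (s * c i + t * d i) • v i = s • (c i • v i) + t • (d i • v i) := by
    intro i
    rw [add_smul, mul_smul, mul_smul]
  simp only [this, Finset.sum_add_distrib, ← Finset.smul_sum, hc, hd, smul_zero, add_zero]

/-- A circuit relation: a linear relation whose support is a circuit. -/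
def CircRel (v : ι → V) (c : ι → ℚ) : Prop :=
  IsRel v c ∧ (vecMatroid ℚ v).IsCircuit (Function.support c)

theorem CircRel.ne_zero {v : ι → V} {c : ι → ℚ} (h : CircRel v c) : c ≠ 0 := by
  intro h0
  have := h.2.nonempty
  rw [h0] at this
  simp at this

theorem CircRel.zero_of {v : ι → V} {c : ι → ℚ} (h : CircRel v c) {d : ι → ℚ} (hd : IsRel v d)
    (hs : Function.support d ⊆ Function.support c) {i : ι} (hi : c i ≠ 0) (hdi : d i = 0) :
    d = 0 := by
  by_contra hne
  have h1 := h.2.eq_of_dep_subset ((dep_iff v).2 ⟨d, hne, hd, subset_rfl⟩) hs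
  have : i ∈ Function.support d := by
    rw [h1]
    exact hi
  exact this hdi

theorem CircRel.prop {v : ι → V} {c d : ι → ℚ} (hc : CircRel v c) (hd : IsRel v d)
    (hs : Function.support d ⊆ Function.support c) (i : ι) (hi : c i ≠ 0) :
    ∀ j, c i * d j = d i * c j := by
  have h1 := hc.zero_of (isRel_add hd hc.1 (c i) (-d i)) (d := fun j => c i * d j + -d i * c j)
    (by
      intro j hj
      by_contra hcj
      have h2 : c j = 0 := by simpa using hcj
      have h3 : d j = 0 := by
        by_contra h
        exact hcj (hs h)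
      apply hj
      simp [h2, h3]) hi (by ring)
  intro j
  have := congrFun h1 j
  simp only [Pi.zero_apply] at this
  linarith

theorem sign_conformal (v : ι → V) : ∀ (n : ℕ) (z : ι → ℚ), z ≠ 0 → IsRel v z →
    (Function.support z).ncard = n → ∃ w, CircRel v w ∧
      ∀ f, w f ≠ 0 → SignType.sign (w f) = SignType.sign (z f) := by
  intro n
  induction n using Nat.strong_induction_on with
  | _ n ih =>
    intro z hz hrel hn
    by_cases hcirc : (vecMatroid ℚ v).IsCircuit (Function.support z)
    · exact ⟨z, ⟨hrel, hcirc⟩, fun _ _ => rfl⟩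
    have hdep : (vecMatroid ℚ v).Dep (Function.support z) := (dep_iff v).2 ⟨z, hz, hrel, subset_rfl⟩
    obtain ⟨C, hCs, hC⟩ := hdep.exists_isCircuit_subset
    have hCne : C ≠ Function.support z := fun h => hcirc (h ▸ hC)
    obtain ⟨d, hd, hdrel, hds⟩ := exists_of_isCircuit v hC
    -- choose the sign of `d` so that some product is positive
    have key : ∃ d : ι → ℚ, IsRel v d ∧ Function.support d ⊂ Function.support z ∧
        ∃ f, 0 < d f * z f := by
      have hss : Function.support d ⊂ Function.support z := by
        rw [hds]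
        exact lt_of_le_of_ne hCs hCne
      obtain ⟨f, hf⟩ : ∃ f, d f ≠ 0 := by
        by_contra h
        push Not at h
        exact hd (funext h)
      have hzf : z f ≠ 0 := hss.1 hf
      rcases lt_or_gt_of_ne (mul_ne_zero hf hzf) with h | h
      · refine ⟨fun i => (-1) * d i + 0 * d i, isRel_add hdrel hdrel (-1) 0, ?_, f, ?_⟩
        · have : Function.support (fun i => (-1) * d i + 0 * d i) = Function.support d := by
            ext i
            simp
          rw [this]
          exact hss
        · nlinarith
      · exact ⟨d, hdrel, hss, f, h⟩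
    obtain ⟨d, hdrel, hss, f1, hf1⟩ := key
    -- the minimal ratio
    have hne : (Finset.univ.filter fun f => 0 < d f * z f).Nonempty := ⟨f1, by simpa using hf1⟩
    obtain ⟨g, hg, hmin⟩ := Finset.exists_min_image _ (fun f => z f / d f) hne
    simp only [Finset.mem_filter, Finset.mem_univ, true_and] at hg hmin
    have hdg : d g ≠ 0 := by
      intro h
      rw [h] at hg
      simp at hg
    have ht : 0 < z g / d g := by
      have : z g / d g = (d g * z g) / (d g * d g) := by
        field_simp
      rw [this]
      exact div_pos hg (mul_self_pos.2 hdg)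
    set t := z g / d g with htdef
    have hz' : IsRel v (fun i => 1 * z i + (-t) * d i) := isRel_add hrel hdrel 1 (-t)
    have hsub : Function.support (fun i => 1 * z i + (-t) * d i) ⊆ Function.support z := by
      intro i hi
      by_contra hzi
      have h1 : z i = 0 := by simpa using hzi
      have h2 : d i = 0 := by
        by_contra h
        exact hzi (hss.1 h)
      apply hi
      simp [h1, h2]
    have hg0 : (fun i => 1 * z i + (-t) * d i) g = 0 := by
      simp only [htdef]
      field_simp
      ring
    have hlt : (Function.support (fun i => 1 * z i + (-t) * d i)).ncard < n := by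
      rw [← hn]
      refine Set.ncard_lt_ncard (lt_of_le_of_ne hsub ?_) (Set.toFinite _)
      intro h
      have : g ∈ Function.support z := by
        intro h
        rw [h] at hg
        simp at hg
      rw [← h] at this
      exact this hg0
    have hz'ne : (fun i => 1 * z i + (-t) * d i) ≠ 0 := by
      intro h
      obtain ⟨f, hf, hfd⟩ := Set.exists_of_ssubset hss
      have h1 := congrFun h f
      have h2 : d f = 0 := by simpa using hfd
      simp only [h2, mul_zero, add_zero, one_mul, Pi.zero_apply] at h1
      exact hf h1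
    obtain ⟨w, hw, hws⟩ := ih _ hlt _ hz'ne hz' rfl
    refine ⟨w, hw, fun f hf => ?_⟩
    rw [hws f hf]
    have h3 : 1 * z f + (-t) * d f ≠ 0 := by
      intro h
      have := hws f hf
      simp only [h, sign_zero] at this
      exact hf (sign_eq_zero_iff.1 this)
    -- the sign of `z f - t d f`
    rcases lt_trichotomy (z f) 0 with h | h | h
    · rw [sign_neg h, sign_neg]
      rcases lt_or_ge 0 (d f * z f) with h4 | h4
      · have h5 := hmin f h4
        have h6 : d f < 0 := by
          by_contra h7
          push Not at h7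
          nlinarith
        rw [le_div_iff_of_neg h6] at h5
        rcases lt_or_eq_of_le h5 with h8 | h8
        · linarith
        · exfalso
          apply h3
          rw [h8]
          ring
      · have h6 : 0 ≤ d f := by
          by_contra h7
          push Not at h7
          nlinarith
        nlinarith
    · exfalso
      have : f ∉ Function.support z := by simpa using h
      exact this (hsub h3)
    · rw [sign_pos h, sign_pos]
      rcases lt_or_ge 0 (d f * z f) with h4 | h4
      · have h5 := hmin f h4
        have h6 : 0 < d f := by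
          by_contra h7
          push Not at h7
          nlinarith
        rw [le_div_iff₀ h6] at h5
        rcases lt_or_eq_of_le h5 with h8 | h8
        · linarith
        · exfalso
          apply h3
          rw [← h8]
          ring
      · have h6 : d f ≤ 0 := by
          by_contra h7
          push Not at h7
          nlinarith
        nlinarith

/-- The sign vector of a vector. -/
def sgn (c : ι → ℚ) : ι → SignType := fun i => SignType.sign (c i)

omit [Fintype ι] in
theorem supp_sgn (c : ι → ℚ) : supp (sgn c) = Function.support c := by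
  ext i
  simp [supp, sgn]

omit [Fintype ι] in
theorem sgn_neg (c : ι → ℚ) : sgn (-c) = -sgn c := by
  funext i
  simp [sgn, Left.sign_neg]

/-- The oriented matroid of a finite family of rational vectors. -/
def ofVec (v : ι → V) : OrientedMatroid ι where
  matroid := vecMatroid ℚ v
  ground := rfl
  circuits := {X | ∃ c, CircRel v c ∧ sgn c = X}
  isCircuit_iff := by
    intro S
    constructor
    · intro hS
      obtain ⟨c, hc, hrel, hs⟩ := exists_of_isCircuit v hS
      exact ⟨sgn c, ⟨c, ⟨hrel, hs ▸ hS⟩, rfl⟩, by rw [supp_sgn, hs]⟩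
    · rintro ⟨X, ⟨c, hc, rfl⟩, hX⟩
      rw [supp_sgn] at hX
      exact hX ▸ hc.2
  neg_mem := by
    rintro X ⟨c, hc, rfl⟩
    refine ⟨-c, ⟨?_, ?_⟩, sgn_neg c⟩
    · have := isRel_add hc.1 hc.1 (-1) 0
      convert this using 1
      funext i
      simp
    · rw [Function.support_neg]
      exact hc.2
  eq_or_eq_neg := by
    rintro X ⟨c, hc, rfl⟩ Y ⟨d, hd, rfl⟩ h
    rw [supp_sgn, supp_sgn] at h
    obtain ⟨i, hi⟩ : ∃ i, c i ≠ 0 := by
      by_contra h
      push Not at h
      exact hc.ne_zero (funext h)
    have hp := hc.prop hd.1 h.symm.subset i hi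
    have hdi : d i ≠ 0 := by
      have : i ∈ Function.support d := h ▸ hi
      exact this
    have hs : ∀ j, SignType.sign (c i) * SignType.sign (d j) =
        SignType.sign (d i) * SignType.sign (c j) := by
      intro j
      rw [← sign_mul, ← sign_mul, hp j]
    rcases lt_or_gt_of_ne hi with h1 | h1 <;> rcases lt_or_gt_of_ne hdi with h2 | h2
    · left
      funext j
      have := hs j
      rw [sign_neg h1, sign_neg h2] at this
      simpa [sgn] using this.symm
    · right
      funext j
      have := hs j
      rw [sign_neg h1, sign_pos h2] at this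
      simpa [sgn] using this.symm
    · right
      funext j
      have := hs j
      rw [sign_pos h1, sign_neg h2] at this
      simp only [sgn, Pi.neg_apply]
      rw [show SignType.sign (d j) = 1 * SignType.sign (d j) by simp, this]
      simp
    · left
      funext j
      have := hs j
      rw [sign_pos h1, sign_pos h2] at this
      simpa [sgn] using this.symm
  elimination := by
    rintro X ⟨c, hc, rfl⟩ Y ⟨d, hd, rfl⟩ hXY e hXe hYe
    have hce : 0 < c e := sign_eq_one_iff.1 hXe
    have hde : d e < 0 := sign_eq_neg_one_iff.1 hYe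
    have hz := isRel_add hc.1 hd.1 (-d e) (c e)
    have hzne : (fun i => -d e * c i + c e * d i) ≠ 0 := by
      intro h
      apply hXY
      funext i
      have h1 := congrFun h i
      simp only [Pi.zero_apply] at h1
      have h2 : c e * d i = d e * c i := by linarith
      have h3 : SignType.sign (c e) * SignType.sign (d i) =
        SignType.sign (d e) * SignType.sign (c i) := by
        rw [← sign_mul, ← sign_mul, h2]
      rw [sign_pos hce, sign_neg hde] at h3
      simp only [sgn, Pi.neg_apply]
      rw [show SignType.sign (d i) = 1 * SignType.sign (d i) by simp, h3]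
      simp
    obtain ⟨w, hw, hws⟩ := sign_conformal v _ _ hzne hz rfl
    refine ⟨sgn w, ⟨w, hw, rfl⟩, ?_, ?_, ?_⟩
    · by_contra hne
      have h1 : w e ≠ 0 := by
        intro h
        apply hne
        simp [sgn, h]
      have h2 := hws e h1
      have h3 : -d e * c e + c e * d e = 0 := by ring
      rw [h3, sign_zero] at h2
      exact h1 (sign_eq_zero_iff.1 h2)
    · intro f hf
      have h1 : 0 < w f := sign_eq_one_iff.1 hf
      have h2 := hws f h1.ne'
      rw [sign_pos h1] at h2
      have h3 : 0 < -d e * c f + c e * d f := sign_eq_one_iff.1 h2.symm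
      by_contra hcon
      push Not at hcon
      have h4 : c f ≤ 0 := by
        by_contra h
        push Not at h
        exact hcon.1 (sign_pos h)
      have h5 : d f ≤ 0 := by
        by_contra h
        push Not at h
        exact hcon.2 (sign_pos h)
      nlinarith
    · intro f hf
      have h1 : w f < 0 := sign_eq_neg_one_iff.1 hf
      have h2 := hws f h1.ne
      rw [sign_neg h1] at h2
      have h3 : -d e * c f + c e * d f < 0 := sign_eq_neg_one_iff.1 h2.symm
      by_contra hcon
      push Not at hcon
      have h4 : 0 ≤ c f := by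
        by_contra h
        push Not at h
        exact hcon.1 (sign_neg h)
      have h5 : 0 ≤ d f := by
        by_contra h
        push Not at h
        exact hcon.2 (sign_neg h)
      nlinarith

end Vec

/-! ### The example -/

/-- The eight vectors: the six vectors of the complete graph on four vertices and two more
coordinate vectors. -/
def v : Fin 8 → (Fin 5 → ℚ) :=
  ![![1, 0, 0, 0, 0], ![0, 1, 0, 0, 0], ![0, 0, 1, 0, 0], ![1, -1, 0, 0, 0], ![0, 1, -1, 0, 0],
    ![1, 0, -1, 0, 0], ![0, 0, 0, 1, 0], ![0, 0, 0, 0, 1]]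

/-- The new vector: the sum of the last two vectors. -/
def w : Option (Fin 8) → (Fin 5 → ℚ) := fun o => o.elim ![0, 0, 0, 1, 1] v

theorem isRel_v (r : Fin 8 → ℚ) : IsRel v r ↔
    r 0 + r 3 + r 5 = 0 ∧ r 1 - r 3 + r 4 = 0 ∧ r 2 - r 4 - r 5 = 0 ∧ r 6 = 0 ∧ r 7 = 0 := by
  unfold IsRel
  rw [funext_iff]
  simp only [Fin.forall_fin_succ, Fin.sum_univ_succ, v, Pi.add_apply, Pi.smul_apply, smul_eq_mul,
    Pi.zero_apply]
  simp [Fin.succ]
  constructor
  · rintro ⟨h1, h2, h3, h4, h5⟩
    refine ⟨?_, ?_, ?_, ?_, ?_⟩ <;> linarith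
  · rintro ⟨h1, h2, h3, h4, h5⟩
    refine ⟨?_, ?_, ?_, ?_, ?_⟩ <;> linarith

theorem isRel_w (r : Option (Fin 8) → ℚ) : IsRel w r ↔
    r (some 0) + r (some 3) + r (some 5) = 0 ∧ r (some 1) - r (some 3) + r (some 4) = 0 ∧
    r (some 2) - r (some 4) - r (some 5) = 0 ∧ r (some 6) + r none = 0 ∧
    r (some 7) + r none = 0 := by
  unfold IsRel
  rw [funext_iff]
  simp only [Fin.forall_fin_succ, Fintype.sum_option, Fin.sum_univ_succ, w, v, Pi.add_apply,
    Pi.smul_apply, smul_eq_mul, Pi.zero_apply]
  simp [Fin.succ]
  constructor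
  · rintro ⟨h1, h2, h3, h4, h5⟩
    refine ⟨?_, ?_, ?_, ?_, ?_⟩ <;> linarith
  · rintro ⟨h1, h2, h3, h4, h5⟩
    refine ⟨?_, ?_, ?_, ?_, ?_⟩ <;> linarith

theorem circRel_iff {ι V : Type} [Fintype ι] [AddCommGroup V] [Module ℚ V] (v : ι → V)
    (c : ι → ℚ) : CircRel v c ↔ c ≠ 0 ∧ IsRel v c ∧ ∀ d : ι → ℚ, d ≠ 0 → IsRel v d →
      Function.support d ⊆ Function.support c → Function.support c ⊆ Function.support d := by
  constructor
  · intro h
    refine ⟨h.ne_zero, h.1, fun d hd hrel hs => ?_⟩
    rw [h.2.eq_of_dep_subset ((dep_iff v).2 ⟨d, hd, hrel, subset_rfl⟩) hs]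
  · rintro ⟨h1, h2, h3⟩
    exact ⟨h2, isCircuit_of_minimal v h1 h2 h3⟩

theorem isRel_option {ι V : Type} [Fintype ι] [AddCommGroup V] [Module ℚ V] (v : ι → V) (x : V)
    (d : Option ι → ℚ) (h : d none = 0) :
    IsRel (fun o : Option ι => o.elim x v) d ↔ IsRel v (fun i => d (some i)) := by
  unfold IsRel
  rw [Fintype.sum_option, h, zero_smul, zero_add]
  rfl

theorem circRel_option {ι V : Type} [Fintype ι] [AddCommGroup V] [Module ℚ V] (v : ι → V) (x : V)
    (c : Option ι → ℚ) (h : c none = 0) :
    CircRel (fun o : Option ι => o.elim x v) c ↔ CircRel v (fun i => c (some i)) := by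
  rw [circRel_iff, circRel_iff, isRel_option v x c h]
  refine and_congr ?_ (and_congr_right fun _ => ?_)
  · rw [not_iff_not]
    constructor
    · intro h1
      funext i
      rw [h1]
      rfl
    · intro h1
      funext o
      cases o with
      | none => exact h
      | some i => exact congrFun h1 i
  · constructor
    · intro h1 d hd hrel hs i hi
      have h2 := h1 (fun o => o.elim 0 d) (by
        intro h3
        apply hd
        funext i
        exact congrFun h3 (some i)) ((isRel_option v x _ rfl).2 hrel) (by
        intro o ho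
        cases o with
        | none => exact absurd rfl ho
        | some i => exact hs ho)
      exact h2 (show some i ∈ Function.support c from hi)
    · intro h1 d hd hrel hs o ho
      have hd0 : d none = 0 := by
        by_contra h2
        exact hs h2 h
      cases o with
      | none => exact absurd h ho
      | some i =>
        refine h1 (fun i => d (some i)) ?_ ((isRel_option v x d hd0).1 hrel) ?_ ho
        · intro h3
          apply hd
          funext o
          cases o with
          | none => exact hd0
          | some i => exact congrFun h3 i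
        · intro i hi
          exact hs hi

theorem isExtension_option {ι V : Type} [Fintype ι] [AddCommGroup V] [Module ℚ V] (v : ι → V)
    (x : V) : IsExtension (ofVec v) (ofVec (fun o : Option ι => o.elim x v)) := by
  intro X
  constructor
  · rintro ⟨c, hc, rfl⟩
    refine ⟨fun o => o.elim 0 c, (circRel_option v x _ rfl).2 hc, ?_⟩
    funext o
    cases o with
    | none => simp [sgn]
    | some i => rfl
  · rintro ⟨c, hc, h⟩
    have h0 : c none = 0 := sign_eq_zero_iff.1 (congrFun h none)
    refine ⟨fun i => c (some i), (circRel_option v x _ h0).1 hc, ?_⟩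
    funext i
    exact congrFun h (some i)

/-- The matroid of the example. -/
abbrev M : Matroid (Fin 8) := (ofVec v).matroid

theorem M_E : M.E = Set.univ := rfl

theorem indep_iff (I : Set (Fin 8)) :
    M.Indep I ↔ ∀ r : Fin 8 → ℚ, IsRel v r → (∀ i, i ∉ I → r i = 0) → r = 0 := by
  rw [← Matroid.not_dep_iff (by rw [M_E]; exact Set.subset_univ _)]
  rw [show M.Dep I ↔ _ from dep_iff v]
  push Not
  constructor
  · intro h r hr hI
    by_contra hne
    exact h r hne hr fun i hi => by
      by_contra h2
      exact hi (hI i h2)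
  · intro h r hne hr hI
    exact hne (h r hr fun i hi => by
      by_contra h2
      exact hi (hI h2))

/-- The three hyperplanes. -/
def H : Fin 3 → Set (Fin 8) := ![{2, 3, 6, 7}, {0, 4, 6, 7}, {1, 5, 6, 7}]

theorem indep_insert (k : Fin 3) (e : Fin 8) (he : e ∉ H k) : M.Indep (insert e (H k)) := by
  rw [indep_iff]
  intro r hr hI
  rw [isRel_v] at hr
  obtain ⟨h1, h2, h3, h4, h5⟩ := hr
  have hz : ∀ i : Fin 8, i ≠ e → i ∉ H k → r i = 0 := fun i h h' => hI i (by
    rw [Set.mem_insert_iff]
    push Not
    exact ⟨h, h'⟩)
  funext i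
  fin_cases k <;> fin_cases e <;>
    simp [H] at he hz <;>
    (have a0 := hz 0; have a1 := hz 1; have a2 := hz 2; have a3 := hz 3; have a4 := hz 4
     have a5 := hz 5
     simp at a0 a1 a2 a3 a4 a5
     fin_cases i <;> simp <;> linarith)

theorem exists_notMem (k : Fin 3) : ∃ e, e ∉ H k := by
  fin_cases k
  · exact ⟨0, by simp [H]⟩
  · exact ⟨1, by simp [H]⟩
  · exact ⟨0, by simp [H]⟩

theorem indep_H (k : Fin 3) : M.Indep (H k) := by
  obtain ⟨e, he⟩ := exists_notMem k
  exact (indep_insert k e he).subset (Set.subset_insert _ _)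

theorem isFlat_H (k : Fin 3) : M.IsFlat (H k) := by
  rw [Matroid.isFlat_iff_closure_eq]
  apply subset_antisymm
  · intro e he
    by_contra hne
    rw [(indep_H k).mem_closure_iff] at he
    rcases he with h | h
    · exact h.not_indep (indep_insert k e hne)
    · exact hne h
  · exact M.subset_closure _ (by rw [M_E]; exact Set.subset_univ _)

theorem encard_H (k : Fin 3) : (H k).encard = 4 := by
  fin_cases k
  · show ({2, 3, 6, 7} : Set (Fin 8)).encard = 4
    rw [Set.encard_eq_coe_toFinset_card]
    simp
  · show ({0, 4, 6, 7} : Set (Fin 8)).encard = 4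
    rw [Set.encard_eq_coe_toFinset_card]
    simp
  · show ({1, 5, 6, 7} : Set (Fin 8)).encard = 4
    rw [Set.encard_eq_coe_toFinset_card]
    simp

theorem encard_le {I : Set (Fin 8)} (hI : M.Indep I) : I.encard ≤ 5 := by
  have h : LinearIndepOn ℚ v I := hI
  have h1 := h.encard_le_toENat_rank
  have h2 : Module.rank ℚ (Fin 5 → ℚ) = 5 := by
    simp
  rw [h2] at h1
  simpa using h1

theorem eq_univ_of_ssubset (k : Fin 3) {G : Set (Fin 8)} (hG : M.IsFlat G) (hH : H k ⊆ G)
    (hne : G ≠ H k) : G = Set.univ := by
  obtain ⟨e, heG, he⟩ : ∃ e ∈ G, e ∉ H k := by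
    by_contra h
    push Not at h
    exact hne (subset_antisymm h hH)
  have hI := indep_insert k e he
  have hcard : (insert e (H k)).encard = 5 := by
    rw [Set.encard_insert_of_notMem he, encard_H]
    norm_num
  have hcl : M.closure (insert e (H k)) ⊆ G := by
    have := M.closure_subset_closure (Set.insert_subset heG hH)
    rwa [hG.closure] at this
  apply Set.eq_univ_of_univ_subset
  intro x _
  apply hcl
  by_cases hx : x ∈ insert e (H k)
  · exact M.subset_closure _ (by rw [M_E]; exact Set.subset_univ _) hx
  · rw [hI.mem_closure_iff_of_notMem hx, ← Matroid.not_indep_iff (by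
      rw [M_E]; exact Set.subset_univ _)]
    intro h
    have h1 := encard_le h
    rw [Set.encard_insert_of_notMem hx, hcard] at h1
    norm_num at h1

theorem eRk_H (k : Fin 3) : M.eRk (H k) = 4 := by
  rw [(indep_H k).eRk_eq_encard, encard_H]

theorem eRk_le (X : Set (Fin 8)) : M.eRk X ≤ 5 :=
  Matroid.eRk_le_iff.2 fun _ _ hI => encard_le hI

theorem inter_H (k l : Fin 3) (h : k ≠ l) : H k ∩ H l = {6, 7} := by
  fin_cases k <;> fin_cases l <;> simp at h <;>
  · ext x
    fin_cases x <;> simp [H]

/-- The small modular cut. -/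
def cutSmall : Set (Set (Fin 8)) := {F | F = Set.univ ∨ ∃ k, F = H k}

/-- The large modular cut: all flats containing the last two elements. -/
def cutLarge : Set (Set (Fin 8)) := {F | M.IsFlat F ∧ 6 ∈ F ∧ 7 ∈ F}

theorem mem_H (k : Fin 3) : (6 : Fin 8) ∈ H k ∧ (7 : Fin 8) ∈ H k := by
  fin_cases k <;> simp [H]

theorem isFlat_inter {F G : Set (Fin 8)} (hF : M.IsFlat F) (hG : M.IsFlat G) :
    M.IsFlat (F ∩ G) := by
  rw [Matroid.isFlat_iff_closure_eq]
  apply subset_antisymm
  · have h1 := M.closure_subset_closure (Set.inter_subset_left (s := F) (t := G))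
    have h2 := M.closure_subset_closure (Set.inter_subset_right (s := F) (t := G))
    rw [hF.closure] at h1
    rw [hG.closure] at h2
    exact Set.subset_inter h1 h2
  · exact M.subset_closure _ (by rw [M_E]; exact Set.subset_univ _)

theorem isModularCut_cutLarge : IsModularCut M cutLarge where
  isFlat _ hF := hF.1
  up_closed _ hF _ hG hFG := ⟨hG, hFG hF.2.1, hFG hF.2.2⟩
  inter_mem _ hF _ hG _ := ⟨isFlat_inter hF.1 hG.1, ⟨hF.2.1, hG.2.1⟩, ⟨hF.2.2, hG.2.2⟩⟩

theorem isFlat_univ : M.IsFlat Set.univ := by
  have := M.ground_isFlat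
  rwa [M_E] at this

theorem isModularCut_cutSmall : IsModularCut M cutSmall where
  isFlat F hF := by
    rcases hF with rfl | ⟨k, rfl⟩
    · exact isFlat_univ
    · exact isFlat_H k
  up_closed F hF G hG hFG := by
    rcases hF with rfl | ⟨k, rfl⟩
    · exact Or.inl (Set.eq_univ_of_univ_subset hFG)
    · by_cases h : G = H k
      · exact Or.inr ⟨k, h⟩
      · exact Or.inl (eq_univ_of_ssubset k hG hFG h)
  inter_mem F hF G hG h := by
    rcases hF with rfl | ⟨k, rfl⟩
    · rw [Set.univ_inter]
      exact hG
    · rcases hG with rfl | ⟨l, rfl⟩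
      · rw [Set.inter_univ]
        exact Or.inr ⟨k, rfl⟩
      · by_cases hkl : k = l
        · subst hkl
          rw [Set.inter_self]
          exact Or.inr ⟨k, rfl⟩
        · exfalso
          rw [eRk_H, eRk_H, inter_H k l hkl] at h
          have h1 := eRk_le (H k ∪ H l)
          have h2 : M.eRk {6, 7} ≤ 2 := (M.eRk_le_encard _).trans (by
            rw [Set.encard_pair (by decide)])
          have h3 : (4 : ℕ∞) + 4 ≤ 5 + 2 := h.trans_le (add_le_add h1 h2)
          norm_num at h3

theorem cutSmall_subset : cutSmall ⊆ cutLarge := by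
  rintro F (rfl | ⟨k, rfl⟩)
  · exact ⟨isFlat_univ, Set.mem_univ _, Set.mem_univ _⟩
  · exact ⟨isFlat_H k, mem_H k⟩

/-! ### The large cut has an oriented extension -/

theorem dep_w_ne_zero {r : Option (Fin 8) → ℚ} (hr : IsRel w r) (h : r none ≠ 0) :
    r (some 6) ≠ 0 ∧ r (some 7) ≠ 0 := by
  rw [isRel_w] at hr
  obtain ⟨_, _, _, h4, h5⟩ := hr
  constructor
  · intro h6
    rw [h6, zero_add] at h4
    exact h h4
  · intro h6
    rw [h6, zero_add] at h5
    exact h h5

theorem circRel_line : CircRel w (fun o => o.elim 1 ![0, 0, 0, 0, 0, 0, -1, -1]) := by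
  rw [circRel_iff]
  refine ⟨?_, ?_, ?_⟩
  · intro h
    have := congrFun h none
    simp at this
  · rw [isRel_w]
    simp
  · intro d hd hrel hs o ho
    have hrel' := (isRel_w d).1 hrel
    obtain ⟨h1, h2, h3, h4, h5⟩ := hrel'
    have hz : ∀ i : Fin 8, i ≠ 6 → i ≠ 7 → d (some i) = 0 := by
      intro i h6 h7
      by_contra hne
      have := hs (show some i ∈ Function.support d from hne)
      rw [Function.mem_support] at this
      apply this
      fin_cases i <;> simp at h6 h7 ⊢
    have hd0 : d none ≠ 0 := by
      intro h0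
      apply hd
      rw [h0, add_zero] at h4 h5
      funext o
      cases o with
      | none => exact h0
      | some i =>
        by_cases h6 : i = 6
        · rw [h6]; exact h4
        · by_cases h7 : i = 7
          · rw [h7]; exact h5
          · exact hz i h6 h7
    have hd67 := dep_w_ne_zero hrel hd0
    rw [Function.mem_support] at ho ⊢
    cases o with
    | none => exact hd0
    | some i =>
      fin_cases i <;> simp at ho ⊢
      · exact hd67.1
      · exact hd67.2

/-- The oriented extension with the large modular cut. -/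
abbrev O₁ : OrientedMatroid (Option (Fin 8)) := ofVec w

theorem mem_closure_iff (F : Set (Fin 8)) :
    none ∈ O₁.matroid.closure (some '' F) ↔ 6 ∈ F ∧ 7 ∈ F := by
  have hn : (none : Option (Fin 8)) ∉ some '' F := by simp
  rw [Matroid.mem_closure_iff_exists_isCircuit hn]
  constructor
  · rintro ⟨C, hCs, hC, hnC⟩
    obtain ⟨r, _, hrel, hs⟩ := exists_of_isCircuit w hC
    have hr0 : r none ≠ 0 := by
      rw [← hs] at hnC
      exact hnC
    obtain ⟨h6, h7⟩ := dep_w_ne_zero hrel hr0
    have h6' := hCs (hs ▸ (show some 6 ∈ Function.support r from h6))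
    have h7' := hCs (hs ▸ (show some 7 ∈ Function.support r from h7))
    exact ⟨by simpa using h6', by simpa using h7'⟩
  · rintro ⟨h6, h7⟩
    refine ⟨_, ?_, circRel_line.2, ?_⟩
    · intro o ho
      rw [Function.mem_support] at ho
      cases o with
      | none => exact Set.mem_insert _ _
      | some i =>
        fin_cases i <;> simp at ho ⊢
        · exact h6
        · exact h7
    · rw [Function.mem_support]
      simp

/-- Every circuit of the extension has at least three elements. -/
theorem simple_w (C : Set (Option (Fin 8))) (hC : O₁.matroid.IsCircuit C) : 3 ≤ C.ncard := by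
  obtain ⟨r, hr0, hrel, hs⟩ := exists_of_isCircuit w hC
  by_contra hlt
  push Not at hlt
  have hrel' := (isRel_w r).1 hrel
  obtain ⟨h1, h2, h3, h4, h5⟩ := hrel'
  -- three elements of the support
  have key : ∀ a b c : Option (Fin 8), a ≠ b → a ≠ c → b ≠ c → r a ≠ 0 → r b ≠ 0 → r c = 0 := by
    intro a b c hab hac hbc ha hb
    by_contra hc
    have hsub : ({a, b, c} : Set (Option (Fin 8))) ⊆ C := by
      rw [← hs]
      rintro x (rfl | rfl | rfl)
      · exact ha
      · exact hb
      · exact hc
    have h6 := Set.ncard_le_ncard hsub (Set.toFinite _)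
    have h7 : ({a, b, c} : Set (Option (Fin 8))).ncard = 3 := by
      rw [Set.ncard_eq_toFinset_card']
      simp [hab, hac, hbc]
    omega
  have hn : r none = 0 := by
    by_contra h
    have h8 := key none (some 6) (some 7) (by simp) (by simp) (by simp) h
      (dep_w_ne_zero hrel h).1
    exact (dep_w_ne_zero hrel h).2 h8
  rw [hn, add_zero] at h4 h5
  have key' : ∀ i j k : Fin 8, i ≠ j → i ≠ k → j ≠ k → r (some i) ≠ 0 → r (some j) ≠ 0 →
      r (some k) ≠ 0 → False := by
    intro i j k hij hik hjk hi hj hk
    exact hk (key (some i) (some j) (some k) (by simpa using hij) (by simpa using hik)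
      (by simpa using hjk) hi hj)
  by_cases h3' : r (some 3) = 0
  · rw [h3'] at h1 h2
    by_cases h4' : r (some 4) = 0
    · rw [h4'] at h2 h3
      have h5' : r (some 5) ≠ 0 := by
        intro h5'
        apply hr0
        rw [h5'] at h1 h3
        funext o
        cases o with
        | none => exact hn
        | some i =>
          fin_cases i <;> simp <;> linarith
      refine key' 0 2 5 (by decide) (by decide) (by decide) (fun h => h5' ?_) (fun h => h5' ?_) h5'
      · rw [h] at h1
        linarith
      · rw [h] at h3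
        linarith
    · have h1' : r (some 1) ≠ 0 := by
        intro h
        rw [h] at h2
        apply h4'
        linarith
      by_cases h5' : r (some 5) = 0
      · refine key' 1 2 4 (by decide) (by decide) (by decide) h1' (fun h => h4' ?_) h4'
        rw [h, h5'] at h3
        linarith
      · exact key' 1 4 5 (by decide) (by decide) (by decide) h1' h4' h5'
  · by_cases h0' : r (some 0) = 0
    · have h5' : r (some 5) ≠ 0 := by
        intro h
        rw [h, h0'] at h1
        apply h3'
        linarith
      by_cases h1' : r (some 1) = 0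
      · refine key' 3 4 5 (by decide) (by decide) (by decide) h3' (fun h => h3' ?_) h5'
        rw [h, h1'] at h2
        linarith
      · exact key' 1 3 5 (by decide) (by decide) (by decide) h1' h3' h5'
    · by_cases h1' : r (some 1) = 0
      · refine key' 0 3 4 (by decide) (by decide) (by decide) h0' h3' (fun h => h3' ?_)
        rw [h, h1'] at h2
        linarith
      · exact key' 0 1 3 (by decide) (by decide) (by decide) h0' h1' h3'

theorem corresponds_cutLarge : Corresponds (ofVec v) O₁ cutLarge := by
  intro F
  rw [mem_closure_iff]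
  rfl

/-! ### The small cut has no oriented extension -/

theorem not_mem_cutSmall : ({6, 7} : Set (Fin 8)) ∉ cutSmall := by
  rintro (h | ⟨k, h⟩)
  · have : (0 : Fin 8) ∈ ({6, 7} : Set (Fin 8)) := h ▸ Set.mem_univ _
    simp at this
  · fin_cases k
    · have : (2 : Fin 8) ∈ ({6, 7} : Set (Fin 8)) := by
        rw [h]
        simp [H]
      simp at this
    · have : (0 : Fin 8) ∈ ({6, 7} : Set (Fin 8)) := by
        rw [h]
        simp [H]
      simp at this
    · have : (1 : Fin 8) ∈ ({6, 7} : Set (Fin 8)) := by
        rw [h]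
        simp [H]
      simp at this

theorem isFlat_pair : M.IsFlat {6, 7} := by
  rw [← inter_H 0 1 (by decide)]
  exact isFlat_inter (isFlat_H 0) (isFlat_H 1)

section NoExt

variable {O₂ : OrientedMatroid (Option (Fin 8))} (hext : IsExtension (ofVec v) O₂)
  (hcor : Corresponds (ofVec v) O₂ cutSmall)

include hcor in
theorem exists_P (k : Fin 3) : ∃ X ∈ O₂.circuits, X none = 1 ∧
    ∀ i : Fin 8, i ∉ H k → X (some i) = 0 := by
  have h1 : none ∈ O₂.matroid.closure (some '' H k) := ((hcor (H k)).1 (Or.inr ⟨k, rfl⟩)).2
  obtain ⟨C, hCs, hC, hnC⟩ := Matroid.exists_isCircuit_of_mem_closure h1 (by simp)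
  obtain ⟨X, hX, hXC⟩ := (O₂.isCircuit_iff C).1 hC
  have hsupp : ∀ i : Fin 8, i ∉ H k → X (some i) = 0 := by
    intro i hi
    by_contra hne
    have : some i ∈ C := by
      rw [← hXC]
      exact hne
    have := hCs this
    simp at this
    exact hi this
  have hXn : X none ≠ 0 := by
    have : none ∈ supp X := by
      rw [hXC]
      exact hnC
    exact this
  rcases h2 : X none with _ | _ | _
  · exact absurd h2 hXn
  · refine ⟨-X, O₂.neg_mem X hX, ?_, fun i hi => ?_⟩
    · rw [Pi.neg_apply, h2]
      rfl
    · rw [Pi.neg_apply, hsupp i hi]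
      rfl
  · exact ⟨X, hX, h2, hsupp⟩

include hext hcor in
/-- Eliminating the new element between two of the three circuits gives a linear relation. -/
theorem exists_rel (k l : Fin 3) (hkl : k ≠ l) {X Y : Option (Fin 8) → SignType}
    (hX : X ∈ O₂.circuits) (hX1 : X none = 1) (hXs : ∀ i : Fin 8, i ∉ H k → X (some i) = 0)
    (hY : Y ∈ O₂.circuits) (hY1 : Y none = 1) (hYs : ∀ i : Fin 8, i ∉ H l → Y (some i) = 0) :
    ∃ z : Fin 8 → ℚ, z ≠ 0 ∧ IsRel v z ∧ (∀ i, i ∉ H k → i ∉ H l → z i = 0) ∧
      ∀ i, i ∉ H l → z i ≠ 0 → X (some i) = SignType.sign (z i) := by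
  have hne : X ≠ Y := by
    intro h
    subst h
    apply not_mem_cutSmall
    rw [hcor]
    refine ⟨isFlat_pair, ?_⟩
    rw [Matroid.mem_closure_iff_exists_isCircuit (by simp)]
    refine ⟨supp X, ?_, (O₂.isCircuit_iff _).2 ⟨X, hX, rfl⟩, ?_⟩
    · intro o ho
      cases o with
      | none => exact Set.mem_insert _ _
      | some i =>
        right
        refine ⟨i, ?_, rfl⟩
        rw [← inter_H k l hkl]
        constructor
        · by_contra h
          exact ho (hXs i h)
        · by_contra h
          exact ho (hYs i h)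
    · show X none ≠ 0
      rw [hX1]
      decide
  obtain ⟨Z, hZ, hZ0, hZp, hZn⟩ := O₂.elimination X hX (-Y) (O₂.neg_mem Y hY)
    (by rw [neg_neg]; exact hne) none hX1 (by rw [Pi.neg_apply, hY1])
  have hZ' : (fun i => Z (some i)) ∈ (ofVec v).circuits := by
    rw [hext]
    convert hZ using 1
    funext o
    cases o with
    | none => exact hZ0.symm
    | some i => rfl
  obtain ⟨z, hz, hzZ⟩ := hZ'
  have hzZ' : ∀ i, SignType.sign (z i) = Z (some i) := fun i => congrFun hzZ i
  refine ⟨z, hz.ne_zero, hz.1, ?_, ?_⟩
  · intro i hik hil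
    have h1 := hXs i hik
    have h2 := hYs i hil
    have h3 := hZp (some i)
    have h4 := hZn (some i)
    rw [h1, Pi.neg_apply, h2] at h3 h4
    by_contra hne0
    rcases lt_or_gt_of_ne hne0 with h | h
    · rcases h4 (by rw [← hzZ', sign_neg h]) with h5 | h5 <;> revert h5 <;> decide
    · rcases h3 (by rw [← hzZ', sign_pos h]) with h5 | h5 <;> revert h5 <;> decide
  · intro i hil hne0
    have h2 := hYs i hil
    have h3 := hZp (some i)
    have h4 := hZn (some i)
    rw [Pi.neg_apply, h2] at h3 h4
    rcases lt_or_gt_of_ne hne0 with h | h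
    · rw [sign_neg h]
      rcases h4 (by rw [← hzZ', sign_neg h]) with h5 | h5
      · exact h5
      · exact absurd h5 (by decide)
    · rw [sign_pos h]
      rcases h3 (by rw [← hzZ', sign_pos h]) with h5 | h5
      · exact h5
      · exact absurd h5 (by decide)

include hext hcor in
theorem no_ext : False := by
  obtain ⟨X, hX, hX1, hXs⟩ := exists_P hcor 0
  obtain ⟨Y, hY, hY1, hYs⟩ := exists_P hcor 1
  obtain ⟨Z, hZ, hZ1, hZs⟩ := exists_P hcor 2
  obtain ⟨a, ha, hrel, has, haX⟩ := exists_rel hext hcor 0 1 (by decide) hX hX1 hXs hY hY1 hYs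
  obtain ⟨b, hb, hrel', hbs, hbX⟩ := exists_rel hext hcor 0 2 (by decide) hX hX1 hXs hZ hZ1 hZs
  rw [isRel_v] at hrel hrel'
  obtain ⟨h1, h2, h3, h4, h5⟩ := hrel
  obtain ⟨g1, g2, g3, g4, g5⟩ := hrel'
  have a1 : a 1 = 0 := has 1 (by simp [H]) (by simp [H])
  have a5 : a 5 = 0 := has 5 (by simp [H]) (by simp [H])
  have b0 : b 0 = 0 := hbs 0 (by simp [H]) (by simp [H])
  have b4 : b 4 = 0 := hbs 4 (by simp [H]) (by simp [H])
  have a23 : a 2 = a 3 := by linarith
  have b23 : b 2 = -b 3 := by linarith
  have a3 : a 3 ≠ 0 := by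
    intro h
    apply ha
    funext i
    fin_cases i <;> simp <;> linarith
  have b3 : b 3 ≠ 0 := by
    intro h
    apply hb
    funext i
    fin_cases i <;> simp <;> linarith
  have e1 := haX 2 (by simp [H]) (by rw [a23]; exact a3)
  have e2 := haX 3 (by simp [H]) a3
  have e3 := hbX 2 (by simp [H]) (by rw [b23]; simpa using b3)
  have e4 := hbX 3 (by simp [H]) b3
  rw [a23, ← e2] at e1
  rw [b23, Left.sign_neg, ← e4, ← e1] at e3
  rw [e1] at e3
  have e5 : X (some 3) ≠ 0 := by
    rw [e4]
    simpa using b3
  revert e3 e5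
  generalize X (some 3) = s
  revert s
  decide

end NoExt

theorem result : ∃ (O : OrientedMatroid (Fin 8)) (O₁ : OrientedMatroid (Option (Fin 8)))
    (𝓜 𝓜' : Set (Set (Fin 8))),
    IsExtension O O₁ ∧ (∀ C, O₁.matroid.IsCircuit C → 3 ≤ C.ncard) ∧
    IsModularCut O.matroid 𝓜 ∧ Corresponds O O₁ 𝓜 ∧
    IsModularCut O.matroid 𝓜' ∧ 𝓜' ⊆ 𝓜 ∧
    ¬ ∃ O₂ : OrientedMatroid (Option (Fin 8)), IsExtension O O₂ ∧ Corresponds O O₂ 𝓜' :=
  ⟨ofVec v, O₁, cutLarge, cutSmall, isExtension_option v _, simple_w, isModularCut_cutLarge,
    corresponds_cutLarge, isModularCut_cutSmall, cutSmall_subset,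
    fun ⟨_, h1, h2⟩ => no_ext h1 h2⟩

end Pool.Agent.Results.MP_6e3918_co.SubCutNotOrientable
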